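import Mathlib

set_option autoImplicit false

namespace Pool.Agent.Results.MP_23ee20_al.RankOneFails

open Matrix Polynomial

/-- The group `SL_3(K)`, the simply connected Chevalley group of type `A_2` over `K`. -/
abbrev SL3 (K : Type) [Field K] : Type := SpecialLinearGroup (Fin 3) K

section Definitions

variable {K : Type} [Field K] {G : Type} [Group G]

/-- The roots of type `A_2` are the ordered pairs `(i, j)` with `i ≠ j` in `Fin 3`. A family
`A i j` of additive subgroups of `K` is a carpet of type `A_2` if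
`A i j * A j k ⊆ A i k` for distinct `i, j, k` (diagonal members `A i i` are ignored). -/
def IsCarpetA2 (A : Fin 3 → Fin 3 → AddSubgroup K) : Prop :=
  ∀ i j k : Fin 3, i ≠ j → j ≠ k → i ≠ k → ∀ a ∈ A i j, ∀ b ∈ A j k, a * b ∈ A i k

/-- The subset `x_r(B)` of the Chevalley group `G`, where `r = (i, j)`, `B ≤ K` and
`x_r(t)` is the image in `G` of the transvection `1 + t E_{ij}`. -/
def rootSet (π : SL3 K →* G) {i j : Fin 3} (h : i ≠ j) (B : AddSubgroup K) : Set G :=
  {g | ∃ t ∈ B, g = π (SpecialLinearGroup.transvection h t)}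

/-- The elementary carpet subgroup `E(A)`. -/
def carpetSubgroup (π : SL3 K →* G) (A : Fin 3 → Fin 3 → AddSubgroup K) : Subgroup G :=
  Subgroup.closure {g | ∃ (i j : Fin 3) (h : i ≠ j), g ∈ rootSet π h (A i j)}

/-- The subgroup generated by `x_r(A_r)` and `x_{-r}(A_{-r})`, `r = (i, j)`. -/
def rankOneSubgroup (π : SL3 K →* G) (A : Fin 3 → Fin 3 → AddSubgroup K) {i j : Fin 3}
    (h : i ≠ j) : Subgroup G :=
  Subgroup.closure (rootSet π h (A i j) ∪ rootSet π h.symm (A j i))

/-- The carpet is admissible: `E(A) ∩ x_r(K) = x_r(A_r)` for every root `r`. -/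
def Admissible (π : SL3 K →* G) (A : Fin 3 → Fin 3 → AddSubgroup K) : Prop :=
  ∀ (i j : Fin 3) (h : i ≠ j),
    (carpetSubgroup π A : Set G) ∩ rootSet π h ⊤ = rootSet π h (A i j)

/-- Every rank-one subcarpet `{A_r, A_{-r}}` is admissible. -/
def RankOneAdmissible (π : SL3 K →* G) (A : Fin 3 → Fin 3 → AddSubgroup K) : Prop :=
  ∀ (i j : Fin 3) (h : i ≠ j),
    (rankOneSubgroup π A h : Set G) ∩ rootSet π h ⊤ = rootSet π h (A i j) ∧
    (rankOneSubgroup π A h : Set G) ∩ rootSet π h.symm ⊤ = rootSet π h.symm (A j i)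

end Definitions

section PingPong

variable {K : Type} [Field K]

/-- Reduced words in `x_{ij}(U)` and `x_{ji}(W)`; the Boolean records the first letter. -/
inductive Red {i j : Fin 3} (h : i ≠ j) (U W : AddSubgroup K) : Bool → SL3 K → Prop
  | base1 (u : K) : u ∈ U → u ≠ 0 → Red h U W true (SpecialLinearGroup.transvection h u)
  | base2 (w : K) : w ∈ W → w ≠ 0 → Red h U W false (SpecialLinearGroup.transvection h.symm w)
  | step1 (u : K) (g : SL3 K) : u ∈ U → u ≠ 0 → Red h U W false g →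
      Red h U W true (SpecialLinearGroup.transvection h u * g)
  | step2 (w : K) (g : SL3 K) : w ∈ W → w ≠ 0 → Red h U W true g →
      Red h U W false (SpecialLinearGroup.transvection h.symm w * g)

lemma tr_mul_same {i j : Fin 3} (h : i ≠ j) (u : K) (g : SL3 K) (l : Fin 3) :
    (SpecialLinearGroup.transvection h u * g) i l = g i l + u * g j l := by
  change (Matrix.transvection i j u * (g : Matrix (Fin 3) (Fin 3) K)) i l = _
  rw [Matrix.transvection_mul_apply_same]

lemma tr_mul_ne {i j : Fin 3} (h : i ≠ j) (u : K) (g : SL3 K) (m l : Fin 3) (hm : m ≠ i) :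
    (SpecialLinearGroup.transvection h u * g) m l = g m l := by
  change (Matrix.transvection i j u * (g : Matrix (Fin 3) (Fin 3) K)) m l = _
  rw [Matrix.transvection_mul_apply_of_ne _ _ _ _ hm]

lemma tr_left {i j : Fin 3} {h : i ≠ j} {U W : AddSubgroup K} (u : K) (hu : u ∈ U)
    (g : SL3 K) (hg : g = 1 ∨ Red h U W true g ∨ Red h U W false g) :
    SpecialLinearGroup.transvection h u * g = 1 ∨
      Red h U W true (SpecialLinearGroup.transvection h u * g) ∨
      Red h U W false (SpecialLinearGroup.transvection h u * g) := by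
  by_cases hu0 : u = 0
  · subst hu0
    rw [SpecialLinearGroup.transvection_coeff_zero, one_mul]
    exact hg
  rcases hg with rfl | hg | hg
  · rw [mul_one]
    exact Or.inr (Or.inl (Red.base1 u hu hu0))
  · cases hg with
    | base1 u' hu' hu0' =>
      rw [← SpecialLinearGroup.transvection_add]
      by_cases h0 : u + u' = 0
      · left; rw [h0, SpecialLinearGroup.transvection_coeff_zero]
      · exact Or.inr (Or.inl (Red.base1 _ (U.add_mem hu hu') h0))
    | step1 u' g' hu' hu0' hg' =>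
      rw [← mul_assoc, ← SpecialLinearGroup.transvection_add]
      by_cases h0 : u + u' = 0
      · rw [h0, SpecialLinearGroup.transvection_coeff_zero, one_mul]
        exact Or.inr (Or.inr hg')
      · exact Or.inr (Or.inl (Red.step1 _ _ (U.add_mem hu hu') h0 hg'))
  · exact Or.inr (Or.inl (Red.step1 u g hu hu0 hg))

lemma tr_left' {i j : Fin 3} {h : i ≠ j} {U W : AddSubgroup K} (w : K) (hw : w ∈ W)
    (g : SL3 K) (hg : g = 1 ∨ Red h U W true g ∨ Red h U W false g) :
    SpecialLinearGroup.transvection h.symm w * g = 1 ∨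
      Red h U W true (SpecialLinearGroup.transvection h.symm w * g) ∨
      Red h U W false (SpecialLinearGroup.transvection h.symm w * g) := by
  by_cases hw0 : w = 0
  · subst hw0
    rw [SpecialLinearGroup.transvection_coeff_zero, one_mul]
    exact hg
  rcases hg with rfl | hg | hg
  · rw [mul_one]
    exact Or.inr (Or.inr (Red.base2 w hw hw0))
  · exact Or.inr (Or.inr (Red.step2 w g hw hw0 hg))
  · cases hg with
    | base2 w' hw' hw0' =>
      rw [← SpecialLinearGroup.transvection_add]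
      by_cases h0 : w + w' = 0
      · left; rw [h0, SpecialLinearGroup.transvection_coeff_zero]
      · exact Or.inr (Or.inr (Red.base2 _ (W.add_mem hw hw') h0))
    | step2 w' g' hw' hw0' hg' =>
      rw [← mul_assoc, ← SpecialLinearGroup.transvection_add]
      by_cases h0 : w + w' = 0
      · rw [h0, SpecialLinearGroup.transvection_coeff_zero, one_mul]
        exact Or.inr (Or.inl hg')
      · exact Or.inr (Or.inr (Red.step2 _ _ (W.add_mem hw hw') h0 hg'))

/-- Generators of the rank-one group inside `SL_3`. -/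
def gens {i j : Fin 3} (h : i ≠ j) (U W : AddSubgroup K) : Set (SL3 K) :=
  rootSet (MonoidHom.id (SL3 K)) h U ∪ rootSet (MonoidHom.id (SL3 K)) h.symm W

lemma closure_red {i j : Fin 3} (h : i ≠ j) (U W : AddSubgroup K) (g : SL3 K)
    (hg : g ∈ Subgroup.closure (gens h U W)) :
    g = 1 ∨ Red h U W true g ∨ Red h U W false g := by
  induction hg using Subgroup.closure_induction_left with
  | one => left; rfl
  | mul_left x hx y hy ih =>
    rcases hx with ⟨t, ht, rfl⟩ | ⟨t, ht, rfl⟩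
    · exact tr_left t ht y ih
    · exact tr_left' t ht y ih
  | inv_mul_cancel x hx y hy ih =>
    rcases hx with ⟨t, ht, rfl⟩ | ⟨t, ht, rfl⟩
    · change (SpecialLinearGroup.transvection h t)⁻¹ * y = 1 ∨ _
      rw [MonoidHom.id_apply, SpecialLinearGroup.transvection_inv]
      exact tr_left _ (U.neg_mem ht) y ih
    · rw [MonoidHom.id_apply, SpecialLinearGroup.transvection_inv]
      exact tr_left' _ (W.neg_mem ht) y ih

variable {Γ₀ : Type} [LinearOrderedCommGroupWithZero Γ₀]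

/-- What a reduced word does to the first basis vector. -/
lemma red_col (v : Valuation K Γ₀) {i j : Fin 3} (h : i ≠ j) (U W : AddSubgroup K)
    (hU : ∀ u ∈ U, u ≠ 0 → 1 < v u) (hW : ∀ w ∈ W, w ≠ 0 → 1 < v w) (b : Bool) (g : SL3 K)
    (hg : Red h U W b g) :
    (b = true → (∃ u ∈ U, g = SpecialLinearGroup.transvection h u) ∨
      (g j i ≠ 0 ∧ v (g j i) < v (g i i))) ∧
    (b = false → (g j i ≠ 0 ∧ v (g i i) < v (g j i))) := by
  induction hg with
  | base1 u hu hu0 =>
    refine ⟨fun _ => Or.inl ⟨u, hu, rfl⟩, fun hb => by simp at hb⟩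
  | base2 w hw hw0 =>
    refine ⟨fun hb => by simp at hb, fun _ => ?_⟩
    have h1 : (SpecialLinearGroup.transvection h.symm w * 1 : SL3 K) j i = w := by
      rw [tr_mul_same]; simp [h.symm]
    have h2 : (SpecialLinearGroup.transvection h.symm w * 1 : SL3 K) i i = 1 := by
      rw [tr_mul_ne _ _ _ _ _ h]; simp
    rw [mul_one] at h1 h2
    rw [h1, h2, map_one]
    exact ⟨hw0, hW w hw hw0⟩
  | step1 u g hu hu0 hg ih =>
    refine ⟨fun _ => Or.inr ?_, fun hb => by simp at hb⟩
    obtain ⟨h1, h2⟩ := ih.2 rfl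
    rw [tr_mul_ne _ _ _ _ _ h.symm, tr_mul_same]
    refine ⟨h1, ?_⟩
    have hv : v (g j i) < v (u * g j i) := by
      rw [map_mul]
      have hpos : 0 < v (g j i) := by
        rw [Valuation.pos_iff]; exact h1
      exact lt_mul_of_one_lt_left hpos (hU u hu hu0)
    rw [Valuation.map_add_eq_of_lt_right v (h2.trans hv)]
    exact hv
  | step2 w g hw hw0 hg ih =>
    refine ⟨fun hb => by simp at hb, fun _ => ?_⟩
    rw [tr_mul_ne _ _ _ _ _ h, tr_mul_same]
    rcases ih.1 rfl with ⟨u, hu, rfl⟩ | ⟨h1, h2⟩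
    · have e1 : (SpecialLinearGroup.transvection h u : SL3 K) i i = 1 := by
        simp [SpecialLinearGroup.transvection_coe, h.symm]
      have e2 : (SpecialLinearGroup.transvection h u : SL3 K) j i = 0 := by
        simp [SpecialLinearGroup.transvection_coe, h, h.symm]
      rw [e1, e2, zero_add, mul_one, map_one]
      exact ⟨hw0, hW w hw hw0⟩
    · have h0 : g i i ≠ 0 := by
        intro h0
        rw [h0, map_zero] at h2
        exact absurd h2 (not_lt.mpr zero_le)
      have hv : v (g i i) < v (w * g i i) := by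
        rw [map_mul]
        have hpos : 0 < v (g i i) := by
          rw [Valuation.pos_iff]; exact h0
        exact lt_mul_of_one_lt_left hpos (hW w hw hw0)
      have e : v (g j i + w * g i i) = v (w * g i i) :=
        Valuation.map_add_eq_of_lt_right v (h2.trans hv)
      refine ⟨?_, ?_⟩
      · intro h3
        rw [h3, map_zero] at e
        rw [← e] at hv
        exact absurd hv (not_lt.mpr zero_le)
      · rw [e]; exact hv

/-- The rank-one group meets the root subgroup only in the expected elements. -/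
lemma rankOne_core (v : Valuation K Γ₀) {i j : Fin 3} (h : i ≠ j) (U W : AddSubgroup K)
    (hU : ∀ u ∈ U, u ≠ 0 → 1 < v u) (hW : ∀ w ∈ W, w ≠ 0 → 1 < v w) (t : K)
    (ht : (SpecialLinearGroup.transvection h t : SL3 K) ∈ Subgroup.closure (gens h U W)) :
    t ∈ U := by
  have e2 : (SpecialLinearGroup.transvection h t : SL3 K) j i = 0 := by
    simp [SpecialLinearGroup.transvection_coe, h, h.symm]
  have e3 : ∀ s : K, (SpecialLinearGroup.transvection h s : SL3 K) i j = s := by
    intro s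
    simp [SpecialLinearGroup.transvection_coe, h]
  rcases closure_red h U W _ ht with h1 | h1 | h1
  · have := e3 t
    rw [h1] at this
    rw [← this]
    simp [h, U.zero_mem]
  · rcases (red_col v h U W hU hW _ _ h1).1 rfl with ⟨u, hu, hut⟩ | ⟨h2, _⟩
    · have := e3 t
      rw [hut, e3 u] at this
      rw [← this]; exact hu
    · exact absurd e2 h2
  · exact absurd e2 ((red_col v h U W hU hW _ _ h1).2 rfl).1

/-- Elements of the rank-one group fix the third coordinate. -/
lemma closure_diag {i j : Fin 3} (h : i ≠ j) (U W : AddSubgroup K) (k : Fin 3) (hk1 : k ≠ i)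
    (hk2 : k ≠ j) (g : SL3 K) (hg : g ∈ Subgroup.closure (gens h U W)) : g k k = 1 := by
  induction hg using Subgroup.closure_induction_left with
  | one => simp
  | mul_left x hx y hy ih =>
    rcases hx with ⟨t, ht, rfl⟩ | ⟨t, ht, rfl⟩
    · rw [MonoidHom.id_apply, tr_mul_ne _ _ _ _ _ hk1, ih]
    · rw [MonoidHom.id_apply, tr_mul_ne _ _ _ _ _ hk2, ih]
  | inv_mul_cancel x hx y hy ih =>
    rcases hx with ⟨t, ht, rfl⟩ | ⟨t, ht, rfl⟩
    · rw [MonoidHom.id_apply, SpecialLinearGroup.transvection_inv, tr_mul_ne _ _ _ _ _ hk1, ih]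
    · rw [MonoidHom.id_apply, SpecialLinearGroup.transvection_inv, tr_mul_ne _ _ _ _ _ hk2, ih]

end PingPong

section Transfer

variable {K : Type} [Field K] {G : Type} [Group G]

lemma map_rootSet (π : SL3 K →* G) {i j : Fin 3} (h : i ≠ j) (B : AddSubgroup K) :
    π '' (rootSet (MonoidHom.id (SL3 K)) h B) = rootSet π h B := by
  ext g
  constructor
  · rintro ⟨_, ⟨t, ht, rfl⟩, rfl⟩
    exact ⟨t, ht, rfl⟩
  · rintro ⟨t, ht, rfl⟩
    exact ⟨_, ⟨t, ht, rfl⟩, rfl⟩

lemma rankOneSubgroup_eq (π : SL3 K →* G) (A : Fin 3 → Fin 3 → AddSubgroup K) {i j : Fin 3}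
    (h : i ≠ j) :
    rankOneSubgroup π A h = (Subgroup.closure (gens h (A i j) (A j i))).map π := by
  unfold rankOneSubgroup gens
  rw [MonoidHom.map_closure, Set.image_union, map_rootSet, map_rootSet]

lemma third_index (i j : Fin 3) : ∃ k : Fin 3, k ≠ i ∧ k ≠ j := by
  revert i j; decide

lemma rankOne_transfer (π : SL3 K →* G) (hπ : π.ker ≤ Subgroup.center (SL3 K))
    {i j : Fin 3} (h : i ≠ j) (U W : AddSubgroup K) (t : K)
    (ht : π (SpecialLinearGroup.transvection h t) ∈ (Subgroup.closure (gens h U W)).map π) :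
    (SpecialLinearGroup.transvection h t : SL3 K) ∈ Subgroup.closure (gens h U W) := by
  obtain ⟨g, hg, hgt⟩ := ht
  have hz : g⁻¹ * SpecialLinearGroup.transvection h t ∈ π.ker := by
    rw [MonoidHom.mem_ker, map_mul, map_inv, hgt, inv_mul_cancel]
  obtain ⟨r, _, hr⟩ := Matrix.SpecialLinearGroup.mem_center_iff.mp (hπ hz)
  obtain ⟨k, hk1, hk2⟩ := third_index i j
  have hgk : g k k = 1 := closure_diag h U W k hk1 hk2 g hg
  have e1 : (SpecialLinearGroup.transvection h t : SL3 K)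
      = g * (g⁻¹ * SpecialLinearGroup.transvection h t) := by
    rw [mul_inv_cancel_left]
  have e2 : ((g * (g⁻¹ * SpecialLinearGroup.transvection h t) : SL3 K) :
      Matrix (Fin 3) (Fin 3) K) k k = g k k * r := by
    rw [Matrix.SpecialLinearGroup.coe_mul, ← hr, Matrix.mul_apply]
    rw [Finset.sum_eq_single k]
    · simp
    · intro b _ hb
      simp [Matrix.scalar_apply, hb]
    · simp
  have e3 : ((SpecialLinearGroup.transvection h t : SL3 K) : Matrix (Fin 3) (Fin 3) K) k k = 1 := by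
    rw [SpecialLinearGroup.transvection_coe]
    simp [Matrix.single, hk1.symm]
  rw [← e1, e3, hgk, one_mul] at e2
  have e4 : (g⁻¹ * SpecialLinearGroup.transvection h t : SL3 K) = 1 := by
    apply Subtype.ext
    rw [← hr, ← e2]
    simp
  rw [e1, e4, mul_one]
  exact hg

end Transfer

section Identity

variable {K : Type} [Field K]

/-- Short name for transvections in `SL_3`. -/
def tv (i j : Fin 3) (h : i ≠ j) (t : K) : SL3 K := SpecialLinearGroup.transvection h t

lemma h01 (t : K) : (tv 0 1 (by decide) t : Matrix (Fin 3) (Fin 3) K)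
    = !![1, t, 0; 0, 1, 0; 0, 0, 1] := by
  ext i j; fin_cases i <;> fin_cases j <;> simp [tv, SpecialLinearGroup.transvection_coe]

lemma h10 (t : K) : (tv 1 0 (by decide) t : Matrix (Fin 3) (Fin 3) K)
    = !![1, 0, 0; t, 1, 0; 0, 0, 1] := by
  ext i j; fin_cases i <;> fin_cases j <;> simp [tv, SpecialLinearGroup.transvection_coe]

lemma h20 (t : K) : (tv 2 0 (by decide) t : Matrix (Fin 3) (Fin 3) K)
    = !![1, 0, 0; 0, 1, 0; t, 0, 1] := by
  ext i j; fin_cases i <;> fin_cases j <;> simp [tv, SpecialLinearGroup.transvection_coe]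

lemma h21 (t : K) : (tv 2 1 (by decide) t : Matrix (Fin 3) (Fin 3) K)
    = !![1, 0, 0; 0, 1, 0; 0, t, 1] := by
  ext i j; fin_cases i <;> fin_cases j <;> simp [tv, SpecialLinearGroup.transvection_coe]

lemma h12 (t : K) : (tv 1 2 (by decide) t : Matrix (Fin 3) (Fin 3) K)
    = !![1, 0, 0; 0, 1, t; 0, 0, 1] := by
  ext i j; fin_cases i <;> fin_cases j <;> simp [tv, SpecialLinearGroup.transvection_coe]

/-- The element `w = x_{01}(a) x_{10}(b) x_{01}(a)`. -/
def w (a b : K) : SL3 K :=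
  tv 0 1 (by decide) a * tv 1 0 (by decide) b * tv 0 1 (by decide) a

lemma w_coe (a b x : K) (hab : a * b = x ^ 2 - 1) : (w a b : Matrix (Fin 3) (Fin 3) K)
    = !![x ^ 2, a * (1 + x ^ 2), 0; b, x ^ 2, 0; 0, 0, 1] := by
  unfold w
  rw [Matrix.SpecialLinearGroup.coe_mul, Matrix.SpecialLinearGroup.coe_mul, h01, h10]
  ext i j
  fin_cases i <;> fin_cases j <;>
    simp [Matrix.mul_apply, Fin.sum_univ_three]
  · linear_combination hab
  · linear_combination a * hab
  · linear_combination hab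

/-- The element `t = x_{12}(-x) x_{20}(-bx) x_{21}(x^3)`. -/
def tt (b x : K) : SL3 K :=
  tv 1 2 (by decide) (-x) * (tv 2 0 (by decide) (-(b * x)) * tv 2 1 (by decide) (x * x ^ 2))

lemma tt_coe (b x : K) : (tt b x : Matrix (Fin 3) (Fin 3) K)
    = !![1, 0, 0; b * x ^ 2, 1 - x ^ 4, -x; -(b * x), x ^ 3, 1] := by
  unfold tt
  rw [Matrix.SpecialLinearGroup.coe_mul, Matrix.SpecialLinearGroup.coe_mul, h12, h20, h21]
  ext i j
  fin_cases i <;> fin_cases j <;>
    simp [Matrix.mul_apply, Fin.sum_univ_three] <;> ring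

lemma ttw_coe (a b x : K) (hab : a * b = x ^ 2 - 1) :
    ((tt b x * w a b : SL3 K) : Matrix (Fin 3) (Fin 3) K)
    = !![x ^ 2, a * (1 + x ^ 2), 0; b, 0, -x; 0, x, 1] := by
  rw [Matrix.SpecialLinearGroup.coe_mul, tt_coe, w_coe a b x hab]
  ext i j
  fin_cases i <;> fin_cases j <;>
    simp [Matrix.mul_apply, Fin.sum_univ_three]
  · ring
  · linear_combination (x ^ 2 * (1 + x ^ 2)) * hab
  · ring
  · linear_combination (- x * (1 + x ^ 2)) * hab

/-- The commutator `[x_{01}(p) x_{21}(x), x_{10}(βx^2) x_{12}(-βxp)]`. -/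
def LL (p x β : K) : SL3 K :=
  (tv 0 1 (by decide) p * tv 2 1 (by decide) x) *
  (tv 1 0 (by decide) (β * x ^ 2) * tv 1 2 (by decide) (-(β * x * p))) *
  ((tv 0 1 (by decide) (-p) * tv 2 1 (by decide) (-x)) *
  (tv 1 0 (by decide) (-(β * x ^ 2)) * tv 1 2 (by decide) (β * x * p)))

lemma half_coe (p x y z : K) :
    (((tv 0 1 (by decide) p * tv 2 1 (by decide) x) *
      (tv 1 0 (by decide) y * tv 1 2 (by decide) z) : SL3 K) : Matrix (Fin 3) (Fin 3) K)
    = !![1 + p * y, p, p * z; y, 1, z; x * y, x, 1 + x * z] := by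
  rw [Matrix.SpecialLinearGroup.coe_mul, Matrix.SpecialLinearGroup.coe_mul,
    Matrix.SpecialLinearGroup.coe_mul, h01, h21, h10, h12]
  ext i j
  fin_cases i <;> fin_cases j <;>
    simp [Matrix.mul_apply, Fin.sum_univ_three]
  ring

lemma LL_coe (p x β : K) : (LL p x β : Matrix (Fin 3) (Fin 3) K)
    = !![1 + β * x ^ 2 * p, 0, -(β * x * p ^ 2); 0, 1, 0; β * x ^ 3, 0, 1 - β * x ^ 2 * p] := by
  unfold LL
  rw [Matrix.SpecialLinearGroup.coe_mul, half_coe, half_coe]
  ext i j
  fin_cases i <;> fin_cases j <;>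
    simp [Matrix.mul_apply, Fin.sum_univ_three] <;> ring

lemma main_identity (a b x β : K) (hab : a * b = x ^ 2 - 1) :
    tv 0 1 (by decide) (-(β * (a * (1 + x ^ 2)) ^ 2)) *
    (tv 2 1 (by decide) (-(β * x * (a * (1 + x ^ 2)))) * LL (a * (1 + x ^ 2)) x β) *
    (tt b x * w a b) = (tt b x * w a b) * tv 1 0 (by decide) β := by
  apply Subtype.ext
  rw [Matrix.SpecialLinearGroup.coe_mul, Matrix.SpecialLinearGroup.coe_mul,
    Matrix.SpecialLinearGroup.coe_mul, Matrix.SpecialLinearGroup.coe_mul _ (tv _ _ _ _),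
    ttw_coe a b x hab, LL_coe, h01, h21, h10]
  ext i j
  fin_cases i <;> fin_cases j <;>
    simp [Matrix.mul_apply, Fin.sum_univ_three]
  · linear_combination (-(β * (a * (1 + x ^ 2)) * (1 + x ^ 2))) * hab
  · ring
  · ring
  · linear_combination (-(β * x * (1 + x ^ 2))) * hab
  · ring
  · ring

end Identity

section Example

/-- Polynomials congruent to an integer multiple of `1 + X` modulo `X ^ 2`. -/
def U12 : AddSubgroup ℚ[X] where
  carrier := {f | f.coeff 0 = f.coeff 1 ∧ ∃ n : ℤ, f.coeff 0 = n}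
  zero_mem' := ⟨by simp, 0, by simp⟩
  add_mem' := by
    rintro f g ⟨h1, n, h2⟩ ⟨h3, m, h4⟩
    refine ⟨by rw [coeff_add, coeff_add, h1, h3], n + m, ?_⟩
    rw [coeff_add, h2, h4]; push_cast; ring
  neg_mem' := by
    rintro f ⟨h1, n, h2⟩
    refine ⟨by rw [coeff_neg, coeff_neg, h1], -n, ?_⟩
    rw [coeff_neg, h2]; push_cast; ring

/-- Polynomials congruent to a rational multiple of `1 - X` modulo `X ^ 2`. -/
def U21 : AddSubgroup ℚ[X] where
  carrier := {f | f.coeff 1 = -f.coeff 0}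
  zero_mem' := by simp
  add_mem' := by
    intro f g h1 h2
    simp only [Set.mem_ofPred_eq, coeff_add] at *
    rw [h1, h2]; ring
  neg_mem' := by
    intro f h1
    simp only [Set.mem_ofPred_eq, coeff_neg] at *
    rw [h1]

/-- Polynomials without constant term. -/
def I0 : AddSubgroup ℚ[X] where
  carrier := {f | f.coeff 0 = 0}
  zero_mem' := by simp
  add_mem' := by
    intro f g h1 h2
    simp only [Set.mem_ofPred_eq, coeff_add] at *
    rw [h1, h2]; ring
  neg_mem' := by
    intro f h1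
    simp only [Set.mem_ofPred_eq, coeff_neg] at *
    rw [h1]; ring

/-- The polynomial version of the carpet. -/
def polyCarpet (i j : Fin 3) : AddSubgroup ℚ[X] :=
  if i = 0 ∧ j = 1 then U12 else if i = 1 ∧ j = 0 then U21 else I0

/-- The carpet over `ℚ(X)`. -/
noncomputable def carpet (i j : Fin 3) : AddSubgroup (RatFunc ℚ) :=
  (polyCarpet i j).map (algebraMap ℚ[X] (RatFunc ℚ)).toAddMonoidHom

lemma mem_carpet (i j : Fin 3) (t : RatFunc ℚ) :
    t ∈ carpet i j ↔ ∃ f ∈ polyCarpet i j, algebraMap ℚ[X] (RatFunc ℚ) f = t := Iff.rfl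

lemma mem_U12 (f : ℚ[X]) : f ∈ U12 ↔ f.coeff 0 = f.coeff 1 ∧ ∃ n : ℤ, f.coeff 0 = n := Iff.rfl
lemma mem_U21 (f : ℚ[X]) : f ∈ U21 ↔ f.coeff 1 = -f.coeff 0 := Iff.rfl
lemma mem_I0 (f : ℚ[X]) : f ∈ I0 ↔ f.coeff 0 = 0 := Iff.rfl

lemma poly_mul_mem : ∀ i j k : Fin 3, i ≠ j → j ≠ k → i ≠ k → ∀ f ∈ polyCarpet i j,
    ∀ g ∈ polyCarpet j k, f * g ∈ polyCarpet i k := by
  intro i j k hij hjk hik f hf g hg
  unfold polyCarpet at *
  fin_cases i <;> fin_cases j <;> fin_cases k <;>
    simp [mem_U12, mem_U21, mem_I0, mul_coeff_zero, mul_coeff_one] at * <;>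
    simp_all
  exact ⟨0, by simp⟩

lemma carpet_isCarpet : IsCarpetA2 carpet := by
  intro i j k hij hjk hik a ha b hb
  obtain ⟨f, hf, rfl⟩ := (mem_carpet i j a).mp ha
  obtain ⟨g, hg, rfl⟩ := (mem_carpet j k b).mp hb
  exact (mem_carpet i k _).mpr ⟨f * g, poly_mul_mem i j k hij hjk hik f hf g hg, map_mul _ _ _⟩

lemma poly_degree (i j : Fin 3) (f : ℚ[X]) (hf : f ∈ polyCarpet i j) (h0 : f ≠ 0) :
    1 ≤ f.natDegree := by
  by_contra hlt
  have hd : f.natDegree = 0 := by omega
  have h1 : f.coeff 1 = 0 := coeff_eq_zero_of_natDegree_lt (by omega)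
  have h2 : f.coeff 0 = 0 := by
    unfold polyCarpet at hf
    split_ifs at hf with h3 h4
    · rw [mem_U12] at hf
      rw [hf.1, h1]
    · rw [mem_U21] at hf
      linarith
    · exact hf
  apply h0
  rw [eq_C_of_natDegree_eq_zero hd, h2, C_0]

lemma carpet_val [DecidableEq (RatFunc ℚ)] (i j : Fin 3) (t : RatFunc ℚ) (ht : t ∈ carpet i j) (h0 : t ≠ 0) :
    1 < RatFunc.inftyValuation ℚ t := by
  obtain ⟨f, hf, rfl⟩ := (mem_carpet i j t).mp ht
  have hf0 : f ≠ 0 := by
    rintro rfl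
    exact h0 (map_zero _)
  have hd := poly_degree i j f hf hf0
  rw [RatFunc.inftyValuation_apply, RatFunc.inftyValuation.polynomial ℚ hf0, ← WithZero.exp_zero, WithZero.exp_lt_exp]
  exact_mod_cast hd

lemma carpet_rankOne {G : Type} [Group G] (π : SL3 (RatFunc ℚ) →* G)
    (hπ : π.ker ≤ Subgroup.center (SL3 (RatFunc ℚ))) {i j : Fin 3} (h : i ≠ j) :
    (rankOneSubgroup π carpet h : Set G) ∩ rootSet π h ⊤ = rootSet π h (carpet i j) := by
  classical
  ext g
  constructor
  · rintro ⟨hg, t, -, rfl⟩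
    refine ⟨t, ?_, rfl⟩
    rw [rankOneSubgroup_eq] at hg
    have h1 := rankOne_transfer π hπ h (carpet i j) (carpet j i) t hg
    exact rankOne_core (RatFunc.inftyValuation ℚ) h (carpet i j) (carpet j i)
      (carpet_val i j) (carpet_val j i) t h1
  · rintro ⟨t, ht, rfl⟩
    exact ⟨Subgroup.subset_closure (Or.inl ⟨t, ht, rfl⟩), t, AddSubgroup.mem_top t, rfl⟩

lemma rankOneSubgroup_symm {K : Type} [Field K] {G : Type} [Group G] (π : SL3 K →* G)
    (A : Fin 3 → Fin 3 → AddSubgroup K) {i j : Fin 3} (h : i ≠ j) :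
    rankOneSubgroup π A h = rankOneSubgroup π A h.symm := by
  unfold rankOneSubgroup
  rw [Set.union_comm]

lemma carpet_rankOneAdmissible {G : Type} [Group G] (π : SL3 (RatFunc ℚ) →* G)
    (hπ : π.ker ≤ Subgroup.center (SL3 (RatFunc ℚ))) : RankOneAdmissible π carpet := by
  intro i j h
  refine ⟨carpet_rankOne π hπ h, ?_⟩
  rw [rankOneSubgroup_symm]
  exact carpet_rankOne π hπ h.symm

/-- The polynomial `-(1/2)(X - 1) ((1 + X)(1 + X^2))^2`. -/
noncomputable def cpoly : ℚ[X] := -((C (1 / 2) * (X - 1)) * ((1 + X) * (1 + X ^ 2)) ^ 2)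

lemma cpoly_coeff : cpoly.coeff 0 = 1 / 2 := by
  unfold cpoly
  simp [mul_coeff_zero, pow_two]

lemma mem_polyCarpet (f : ℚ[X]) : (f ∈ polyCarpet 0 1 ↔ f ∈ U12) ∧ (f ∈ polyCarpet 1 0 ↔ f ∈ U21) ∧
    (f ∈ polyCarpet 2 0 ↔ f ∈ I0) ∧ (f ∈ polyCarpet 2 1 ↔ f ∈ I0) ∧ (f ∈ polyCarpet 1 2 ↔ f ∈ I0) := by
  refine ⟨?_, ?_, ?_, ?_, ?_⟩ <;> simp [polyCarpet]

lemma gen_mem {G : Type} [Group G] (π : SL3 (RatFunc ℚ) →* G) {i j : Fin 3} (h : i ≠ j)
    (f : ℚ[X]) (hf : f ∈ polyCarpet i j) :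
    tv i j h (algebraMap ℚ[X] (RatFunc ℚ) f) ∈ (carpetSubgroup π carpet).comap π := by
  rw [Subgroup.mem_comap]
  exact Subgroup.subset_closure ⟨i, j, h, _, (mem_carpet i j _).mpr ⟨f, hf, rfl⟩, rfl⟩

lemma c_mem {G : Type} [Group G] (π : SL3 (RatFunc ℚ) →* G) :
    tv 0 1 (by decide) (algebraMap ℚ[X] (RatFunc ℚ) cpoly) ∈ (carpetSubgroup π carpet).comap π := by
  set S := (carpetSubgroup π carpet).comap π with hS
  set φ := algebraMap ℚ[X] (RatFunc ℚ) with hφ
  have hab : φ (1 + X) * φ (X - 1) = (φ X) ^ 2 - 1 := by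
    rw [← map_mul, ← map_pow, ← map_one φ, ← map_sub]
    congr 1; ring
  have hid := main_identity (φ (1 + X)) (φ (X - 1)) (φ X) (φ (C (1 / 2) * (X - 1))) hab
  have ha : tv 0 1 (by decide) (φ (1 + X)) ∈ S := by
    apply gen_mem
    rw [(mem_polyCarpet _).1, mem_U12]
    simp only [coeff_add, coeff_X_zero, coeff_one, coeff_X_one]
    exact ⟨by norm_num, 1, by norm_num⟩
  have hb : tv 1 0 (by decide) (φ (X - 1)) ∈ S := by
    apply gen_mem
    rw [(mem_polyCarpet _).2.1, mem_U21]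
    simp only [coeff_sub, coeff_X_zero, coeff_one, coeff_X_one]
    norm_num
  have hβ : tv 1 0 (by decide) (φ (C (1 / 2) * (X - 1))) ∈ S := by
    apply gen_mem
    rw [(mem_polyCarpet _).2.1, mem_U21]
    simp only [coeff_C_mul, coeff_sub, coeff_X_zero, coeff_one, coeff_X_one]
    norm_num
  have hI20 : ∀ f : ℚ[X], f.coeff 0 = 0 → tv 2 0 (by decide) (φ f) ∈ S := by
    intro f hf
    apply gen_mem
    rw [(mem_polyCarpet _).2.2.1, mem_I0]
    exact hf
  have hI21 : ∀ f : ℚ[X], f.coeff 0 = 0 → tv 2 1 (by decide) (φ f) ∈ S := by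
    intro f hf
    apply gen_mem
    rw [(mem_polyCarpet _).2.2.2.1, mem_I0]
    exact hf
  have hI12 : ∀ f : ℚ[X], f.coeff 0 = 0 → tv 1 2 (by decide) (φ f) ∈ S := by
    intro f hf
    apply gen_mem
    rw [(mem_polyCarpet _).2.2.2.2, mem_I0]
    exact hf
  have hw : w (φ (1 + X)) (φ (X - 1)) ∈ S := S.mul_mem (S.mul_mem ha hb) ha
  have htt : tt (φ (X - 1)) (φ X) ∈ S := by
    refine S.mul_mem ?_ (S.mul_mem ?_ ?_)
    · rw [← map_neg]
      exact hI12 _ (by simp)
    · rw [← map_mul, ← map_neg]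
      exact hI20 _ (by simp)
    · rw [← map_pow, ← map_mul]
      exact hI21 _ (by simp)
  have hp : φ (1 + X) * (1 + φ X ^ 2) = φ ((1 + X) * (1 + X ^ 2)) := by
    rw [← map_pow, ← map_one φ, ← map_add, ← map_mul]
  rw [hp] at hid
  have hpmem : ∀ f : ℚ[X], f ∈ U12 → tv 0 1 (by decide) (φ f) ∈ S := by
    intro f hf
    apply gen_mem
    rw [(mem_polyCarpet _).1]
    exact hf
  have hp12 : ((1 + X) * (1 + X ^ 2) : ℚ[X]) ∈ U12 := by
    rw [mem_U12]
    have h0 : ((1 + X) * (1 + X ^ 2) : ℚ[X]).coeff 0 = 1 := by simp [mul_coeff_zero]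
    have h1 : ((1 + X) * (1 + X ^ 2) : ℚ[X]).coeff 1 = 1 := by
      simp [mul_coeff_one, coeff_one, coeff_X_pow]
    rw [h0, h1]
    exact ⟨rfl, 1, by norm_num⟩
  have hJ : ∀ f : ℚ[X], tv 1 0 (by decide) (φ (f * X ^ 2)) ∈ S := by
    intro f
    apply gen_mem
    rw [(mem_polyCarpet _).2.1, mem_U21]
    simp [mul_coeff_zero, mul_coeff_one, coeff_X_pow]
  have hLL : LL (φ ((1 + X) * (1 + X ^ 2))) (φ X) (φ (C (1 / 2) * (X - 1))) ∈ S := by
    refine S.mul_mem (S.mul_mem (S.mul_mem ?_ ?_) (S.mul_mem ?_ ?_))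
      (S.mul_mem (S.mul_mem ?_ ?_) (S.mul_mem ?_ ?_))
    · exact hpmem _ hp12
    · exact hI21 _ (by simp)
    · rw [← map_pow, ← map_mul]
      exact hJ _
    · rw [← map_mul, ← map_mul, ← map_neg]
      exact hI12 _ (by simp [mul_coeff_zero])
    · rw [← map_neg]
      exact hpmem _ (U12.neg_mem hp12)
    · rw [← map_neg]
      exact hI21 _ (by simp)
    · rw [← map_pow, ← map_mul, ← map_neg, ← neg_mul]
      exact hJ _
    · rw [← map_mul, ← map_mul]
      exact hI12 _ (by simp [mul_coeff_zero])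
  have h21 : tv 2 1 (by decide)
      (-(φ (C (1 / 2) * (X - 1)) * φ X * φ ((1 + X) * (1 + X ^ 2)))) ∈ S := by
    rw [← map_mul, ← map_mul, ← map_neg]
    exact hI21 _ (by simp [mul_coeff_zero])
  have hT := S.mul_mem htt hw
  have hc : φ cpoly = -(φ (C (1 / 2) * (X - 1)) * φ ((1 + X) * (1 + X ^ 2)) ^ 2) := by
    rw [← map_pow, ← map_mul, ← map_neg]
    rfl
  rw [hc]
  have hR := S.mul_mem h21 hLL
  have hfin : tv 0 1 (by decide) (-(φ (C (1 / 2) * (X - 1)) * φ ((1 + X) * (1 + X ^ 2)) ^ 2)) =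
      (tt (φ (X - 1)) (φ X) * w (φ (1 + X)) (φ (X - 1))) *
        tv 1 0 (by decide) (φ (C (1 / 2) * (X - 1))) *
      (tt (φ (X - 1)) (φ X) * w (φ (1 + X)) (φ (X - 1)))⁻¹ *
      (tv 2 1 (by decide) (-(φ (C (1 / 2) * (X - 1)) * φ X * φ ((1 + X) * (1 + X ^ 2)))) *
        LL (φ ((1 + X) * (1 + X ^ 2))) (φ X) (φ (C (1 / 2) * (X - 1))))⁻¹ := by
    rw [eq_mul_inv_iff_mul_eq, eq_mul_inv_iff_mul_eq]
    exact hid
  rw [hfin]
  exact S.mul_mem (S.mul_mem (S.mul_mem hT hβ) (S.inv_mem hT)) (S.inv_mem hR)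

lemma carpet_not_admissible {G : Type} [Group G] (π : SL3 (RatFunc ℚ) →* G)
    (hπ : π.ker ≤ Subgroup.center (SL3 (RatFunc ℚ))) : ¬ Admissible π carpet := by
  intro hadm
  have h1 : π (tv 0 1 (by decide) (algebraMap ℚ[X] (RatFunc ℚ) cpoly)) ∈
      (carpetSubgroup π carpet : Set G) ∩ rootSet π (show (0 : Fin 3) ≠ 1 by decide) ⊤ :=
    ⟨c_mem π, _, AddSubgroup.mem_top _, rfl⟩
  rw [hadm 0 1 (by decide)] at h1
  obtain ⟨t, ht, htc⟩ := h1
  obtain ⟨f, hf, rfl⟩ := (mem_carpet 0 1 t).mp ht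
  have h2 : (SpecialLinearGroup.transvection (show (0 : Fin 3) ≠ 1 by decide)
      (algebraMap ℚ[X] (RatFunc ℚ) cpoly + -(algebraMap ℚ[X] (RatFunc ℚ) f))) ∈ π.ker := by
    rw [MonoidHom.mem_ker, SpecialLinearGroup.transvection_add,
      ← SpecialLinearGroup.transvection_inv, map_mul, map_inv]
    change π (tv 0 1 _ _) * _ = 1
    rw [htc, mul_inv_cancel]
  have h3 := (SpecialLinearGroup.transvection_mem_center_iff _ _).mp (hπ h2)
  rw [← sub_eq_add_neg, sub_eq_zero] at h3
  have h4 : cpoly = f := RatFunc.algebraMap_injective ℚ h3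
  rw [(mem_polyCarpet _).1, ← h4, mem_U12] at hf
  obtain ⟨_, n, hn⟩ := hf
  rw [cpoly_coeff] at hn
  have h5 : ((2 * n : ℤ) : ℚ) = ((1 : ℤ) : ℚ) := by push_cast; linarith
  have h6 : 2 * n = 1 := by exact_mod_cast h5
  omega

end Example

/-- Sanity check: `SL_3` itself and `PSL_3` (the quotient by the centre) are among the groups
covered by the theorem. -/
lemma covered (K : Type) [Field K] :
    (Function.Surjective (MonoidHom.id (SL3 K)) ∧
      (MonoidHom.id (SL3 K)).ker ≤ Subgroup.center (SL3 K)) ∧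
    (Function.Surjective (QuotientGroup.mk' (Subgroup.center (SL3 K))) ∧
      (QuotientGroup.mk' (Subgroup.center (SL3 K))).ker ≤ Subgroup.center (SL3 K)) := by
  refine ⟨⟨Function.surjective_id, fun x hx => ?_⟩, QuotientGroup.mk'_surjective _, ?_⟩
  · have h : x = 1 := hx
    rw [h]
    exact Subgroup.one_mem _
  · rw [QuotientGroup.ker_mk']

/-- A carpet of type `A_2` over `ℚ(X)`, all of whose rank-one subcarpets are admissible although
the carpet itself is not admissible, in every Chevalley group of type `A_2` over `ℚ(X)`, that is,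
in every quotient of `SL_3(ℚ(X))` by a central subgroup. -/
theorem result : ∃ A : Fin 3 → Fin 3 → AddSubgroup (RatFunc ℚ), IsCarpetA2 A ∧
    ∀ (G : Type) [Group G] (π : SL3 (RatFunc ℚ) →* G), Function.Surjective π →
      π.ker ≤ Subgroup.center (SL3 (RatFunc ℚ)) →
        RankOneAdmissible π A ∧ ¬ Admissible π A :=
  ⟨carpet, carpet_isCarpet, fun _ _ π _ hπ =>
    ⟨carpet_rankOneAdmissible π hπ, carpet_not_admissible π hπ⟩⟩

end Pool.Agent.Results.MP_23ee20_al.RankOneFails
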